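import Pool.Agent.G02.Stmts

set_option autoImplicit false

namespace Pool.Agent.G02.H90

open Pool.Agent

theorem sym_neg_one {p : ℕ} [Fact p.Prime] (h : p % 8 = 3) : legendreSym p (-1) = -1 := by
  have h2 : p ≠ 2 := by rintro rfl; norm_num at h
  rw [legendreSym.at_neg_one h2]
  exact ZMod.χ₄_nat_three_mod_four (by omega)

theorem sym_two {p : ℕ} [Fact p.Prime] (h : p % 8 = 3) : legendreSym p 2 = -1 := by
  have h2 : p ≠ 2 := by rintro rfl; norm_num at h
  rw [legendreSym.at_two h2, ZMod.χ₈_nat_eq_if_mod_eight]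
  have h3 : p % 2 ≠ 0 := by omega
  have h4 : ¬ (p % 8 = 1 ∨ p % 8 = 7) := by omega
  simp [h3, h4]

theorem prime_not_dvd {p q : ℕ} (hp : p.Prime) (hq : q.Prime) (h : p ≠ q) :
    ¬ (p : ℤ) ∣ (q : ℤ) := by
  intro hd
  have : p ∣ q := by exact_mod_cast hd
  exact h ((Nat.prime_dvd_prime_iff_eq hp hq).1 this)

theorem odd_cast {n : ℤ} (h : ¬ (2 : ℤ) ∣ n) : (n : ZMod 2) = 1 := by
  have h1 : n % 2 = 1 := by omega
  have : ((n : ℤ) : ZMod 2) = ((1 : ℤ) : ZMod 2) := by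
    rw [ZMod.intCast_eq_intCast_iff]
    exact h1
  simpa using this

theorem two_adic (k M e N p q r : ℤ) (hp : p % 8 = 3) (hq : q % 8 = 3) (hr : r % 8 = 3)
    (hk : k % 4 = 1 ∨ 2 ∣ k) (hk4 : ¬ (4 : ℤ) ∣ k) (he : ¬ (2 : ℤ) ∣ e)
    (h : N ^ 2 = -2 * M ^ 4 + (-(4 * k * p * q)) * M ^ 2 * e ^ 2 + (2 * k ^ 2 * p * q ^ 2 * r) * e ^ 4) :
    False := by
  have hN : (2 : ℤ) ∣ N := by
    have : (2 : ℤ) ∣ N ^ 2 := by
      rw [h]
      exact ⟨-M ^ 4 - 2 * k * p * q * M ^ 2 * e ^ 2 + k ^ 2 * p * q ^ 2 * r * e ^ 4, by ring⟩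
    exact Int.prime_two.dvd_of_dvd_pow this
  obtain ⟨N₁, rfl⟩ := hN
  have h1 : 2 * N₁ ^ 2 = -M ^ 4 - 2 * k * p * q * M ^ 2 * e ^ 2 + k ^ 2 * p * q ^ 2 * r * e ^ 4 := by
    have : 2 * (2 * N₁ ^ 2) = 2 * (-M ^ 4 - 2 * k * p * q * M ^ 2 * e ^ 2
        + k ^ 2 * p * q ^ 2 * r * e ^ 4) := by
      linear_combination h
    linarith
  have p1 : (p : ZMod 2) = 1 := odd_cast (by omega)
  have q1 : (q : ZMod 2) = 1 := odd_cast (by omega)
  have r1 : (r : ZMod 2) = 1 := odd_cast (by omega)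
  have e1 : (e : ZMod 2) = 1 := odd_cast he
  have c2 : (2 : ZMod 2) = 0 := rfl
  rcases hk with hk | hk
  · -- `k` is odd
    have k1 : (k : ZMod 2) = 1 := odd_cast (by omega)
    have hM : ¬ (2 : ℤ) ∣ M := by
      rintro ⟨M₁, rfl⟩
      have h2 := congrArg (Int.cast : ℤ → ZMod 2) h1
      push_cast at h2
      rw [p1, q1, r1, e1, k1, c2] at h2
      norm_num at h2
    have h2 := congrArg (Int.cast : ℤ → ZMod 8) h1
    push_cast at h2
    have p8 : (p : ZMod 8) = 3 := by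
      have : ((p : ℤ) : ZMod 8) = ((3 : ℤ) : ZMod 8) := by
        rw [ZMod.intCast_eq_intCast_iff]; exact hp
      simpa using this
    have q8 : (q : ZMod 8) = 3 := by
      have : ((q : ℤ) : ZMod 8) = ((3 : ℤ) : ZMod 8) := by
        rw [ZMod.intCast_eq_intCast_iff]; exact hq
      simpa using this
    have r8 : (r : ZMod 8) = 3 := by
      have : ((r : ℤ) : ZMod 8) = ((3 : ℤ) : ZMod 8) := by
        rw [ZMod.intCast_eq_intCast_iff]; exact hr
      simpa using this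
    have k8 : (k : ZMod 8) = 1 ∨ (k : ZMod 8) = 5 := by
      have : k % 8 = 1 ∨ k % 8 = 5 := by omega
      rcases this with h3 | h3
      · left
        have : ((k : ℤ) : ZMod 8) = ((1 : ℤ) : ZMod 8) := by
          rw [ZMod.intCast_eq_intCast_iff]; exact h3
        simpa using this
      · right
        have : ((k : ℤ) : ZMod 8) = ((5 : ℤ) : ZMod 8) := by
          rw [ZMod.intCast_eq_intCast_iff]; exact h3
        simpa using this
    have hodd : ∀ n : ℤ, ¬ (2 : ℤ) ∣ n → (n : ZMod 8) ^ 2 = 1 := by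
      intro n hn
      have h3 : n % 8 = 1 ∨ n % 8 = 3 ∨ n % 8 = 5 ∨ n % 8 = 7 := by omega
      rcases h3 with h3 | h3 | h3 | h3
      · have : ((n : ℤ) : ZMod 8) = ((1 : ℤ) : ZMod 8) := by
          rw [ZMod.intCast_eq_intCast_iff]; exact h3
        rw [this]; decide
      · have : ((n : ℤ) : ZMod 8) = ((3 : ℤ) : ZMod 8) := by
          rw [ZMod.intCast_eq_intCast_iff]; exact h3
        rw [this]; decide
      · have : ((n : ℤ) : ZMod 8) = ((5 : ℤ) : ZMod 8) := by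
          rw [ZMod.intCast_eq_intCast_iff]; exact h3
        rw [this]; decide
      · have : ((n : ℤ) : ZMod 8) = ((7 : ℤ) : ZMod 8) := by
          rw [ZMod.intCast_eq_intCast_iff]; exact h3
        rw [this]; decide
    have M2 := hodd M hM
    have e2 := hodd e he
    have M4 : (M : ZMod 8) ^ 4 = 1 := by
      have : (M : ZMod 8) ^ 4 = ((M : ZMod 8) ^ 2) ^ 2 := by ring
      rw [this, M2, one_pow]
    have e4 : (e : ZMod 8) ^ 4 = 1 := by
      have : (e : ZMod 8) ^ 4 = ((e : ZMod 8) ^ 2) ^ 2 := by ring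
      rw [this, e2, one_pow]
    rw [M4, e4, M2, e2, p8, q8, r8] at h2
    have hdec : ∀ n : ZMod 8, ∀ k : ZMod 8, k = 1 ∨ k = 5 →
        2 * n ^ 2 = -1 - 2 * k * 3 * 3 * 1 * 1 + k ^ 2 * 3 * 3 ^ 2 * 3 * 1 → False := by decide
    exact hdec _ _ k8 h2
  · -- `k` is even
    obtain ⟨k₁, rfl⟩ := hk
    have hk1 : (k₁ : ZMod 2) = 1 := odd_cast (by
      rintro ⟨k₂, rfl⟩; exact hk4 ⟨k₂, by ring⟩)
    have hM : (2 : ℤ) ∣ M := by
      have : (2 : ℤ) ∣ M ^ 4 := by
        refine ⟨-(N₁ ^ 2) - 2 * k₁ * p * q * M ^ 2 * e ^ 2 + 2 * k₁ ^ 2 * p * q ^ 2 * r * e ^ 4, ?_⟩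
        linear_combination h1
      exact Int.prime_two.dvd_of_dvd_pow this
    obtain ⟨M₁, rfl⟩ := hM
    have h3 : N₁ ^ 2 = -8 * M₁ ^ 4 - 8 * k₁ * p * q * M₁ ^ 2 * e ^ 2
        + 2 * k₁ ^ 2 * p * q ^ 2 * r * e ^ 4 := by
      have : 2 * N₁ ^ 2 = 2 * (-8 * M₁ ^ 4 - 8 * k₁ * p * q * M₁ ^ 2 * e ^ 2
        + 2 * k₁ ^ 2 * p * q ^ 2 * r * e ^ 4) := by linear_combination h1
      linarith
    have hN : (2 : ℤ) ∣ N₁ := by
      have : (2 : ℤ) ∣ N₁ ^ 2 := by
        rw [h3]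
        exact ⟨-4 * M₁ ^ 4 - 4 * k₁ * p * q * M₁ ^ 2 * e ^ 2 + k₁ ^ 2 * p * q ^ 2 * r * e ^ 4,
          by ring⟩
      exact Int.prime_two.dvd_of_dvd_pow this
    obtain ⟨N₂, rfl⟩ := hN
    have h4 : 2 * N₂ ^ 2 = -4 * M₁ ^ 4 - 4 * k₁ * p * q * M₁ ^ 2 * e ^ 2
        + k₁ ^ 2 * p * q ^ 2 * r * e ^ 4 := by
      have : 2 * (2 * N₂ ^ 2) = 2 * (-4 * M₁ ^ 4 - 4 * k₁ * p * q * M₁ ^ 2 * e ^ 2
        + k₁ ^ 2 * p * q ^ 2 * r * e ^ 4) := by linear_combination h3
      linarith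
    have h5 := congrArg (Int.cast : ℤ → ZMod 2) h4
    push_cast at h5
    have c4 : (4 : ZMod 2) = 0 := rfl
    rw [p1, q1, r1, e1, hk1, c2, c4] at h5
    norm_num at h5

theorem va2 (hsua : SuaStmt) (hrla : RlaStmt) (hla : LaStmt) (hld : LdStmt)
    (hsqf : NJ.SQFStmt) : Va2Stmt := by
  intro k p q r _ hR hk hkq d M e N B hQ hpd
  have : Fact p.Prime := ⟨hR.pp⟩
  have : Fact r.Prime := ⟨hR.pr⟩
  obtain ⟨hr8, s, S⟩ := hrla k p q r hR
  have hpP : Prime (p : ℤ) := Nat.prime_iff_prime_int.1 hR.pp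
  have hqP : Prime (q : ℤ) := Nat.prime_iff_prime_int.1 hR.pq
  have hr := hR.hr
  have mp := hR.mp
  have mq := hR.mq
  have q2 : ¬ (q : ℤ) ∣ 2 := by
    have := prime_not_dvd hR.pq Nat.prime_two S.q2
    exact_mod_cast this
  have p2 : ¬ (p : ℤ) ∣ 2 := by
    have := prime_not_dvd hR.pp Nat.prime_two S.p2
    exact_mod_cast this
  have qp : ¬ (q : ℤ) ∣ p := prime_not_dvd hR.pq hR.pp (Ne.symm S.npq)
  have pq : ¬ (p : ℤ) ∣ q := prime_not_dvd hR.pp hR.pq S.npq
  have pr : ¬ (p : ℤ) ∣ r := prime_not_dvd hR.pp hR.pr S.npr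
  -- LD at q
  have hLD := hld _ _ d M e N B hQ q (-(4 * k * p)) (-(4 * k ^ 2 * p * r)) (32 * k ^ 2 * p) S.q2
    (by ring) (by ring) (by rw [hr]; ring) (by
      have e1 : (2 * -(4 * k * (p : ℤ)) * (32 * k ^ 2 * p) : ℤ)
          = (-1) * k * (16 * k * p) ^ 2 := by ring
      rw [e1, legendreSym.mul, legendreSym.mul, sym_neg_one mq, hkq, legendreSym.sq_one']
      · norm_num
      · intro h0
        rw [ZMod.intCast_zmod_eq_zero_iff_dvd] at h0
        have e2 : (16 * k * (p : ℤ)) = 2 ^ 4 * k * p := by ring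
        rw [e2] at h0
        rcases hqP.dvd_or_dvd h0 with h1 | h1
        · rcases hqP.dvd_or_dvd h1 with h2 | h2
          · exact q2 (hqP.dvd_of_dvd_pow h2)
          · exact S.kq h2
        · exact qp h1)
  obtain ⟨hqd, hdq⟩ := hLD
  -- LA at p
  have hdp : legendreSym p d = 1 := by
    refine hla _ _ d M e N B hQ p S.p2 hpd (Or.inl ⟨?_, ?_, ?_⟩)
    · exact ⟨-(4 * k * q), by ring⟩
    · exact ⟨-(4 * k ^ 2 * q ^ 2 * r), by ring⟩
    · rintro ⟨c, hc⟩
      have h1 : (p : ℤ) ∣ 2 ^ 2 * k ^ 2 * q ^ 2 * r := by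
        refine ⟨-c, ?_⟩
        have hp0 : (p : ℤ) ≠ 0 := by exact_mod_cast hR.pp.ne_zero
        apply mul_left_cancel₀ hp0
        linear_combination (-1) * hc
      rcases hpP.dvd_or_dvd h1 with h2 | h2
      · rcases hpP.dvd_or_dvd h2 with h3 | h3
        · rcases hpP.dvd_or_dvd h3 with h4 | h4
          · exact p2 (hpP.dvd_of_dvd_pow h4)
          · exact S.kp (hpP.dvd_of_dvd_pow h4)
        · exact pq (hpP.dvd_of_dvd_pow h3)
      · exact pr h2
  -- the support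
  have hS := (hsua k p q r hR d M e N B).2.1 hQ
  obtain ⟨ε, hε, hd⟩ := (hsqf d r q hQ.sqf hR.pr hR.pq S.r2 S.q2 (Ne.symm S.nqr)).1 (by
    intro l hl hld
    rcases hS l hl hld with h | h | h | h
    · exact Or.inl h
    · subst h; exact absurd hld hpd
    · subst h; exact absurd hld hqd
    · exact Or.inr h)
  have hεpq : legendreSym p ε = legendreSym q ε := by
    rcases hε with rfl | rfl
    · rw [legendreSym.at_one, legendreSym.at_one]
    · rw [sym_neg_one mp, sym_neg_one mq]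
  have hε2 : legendreSym q ε = 1 ∨ legendreSym q ε = -1 := by
    rcases hε with rfl | rfl
    · rw [legendreSym.at_one]; exact Or.inl rfl
    · rw [sym_neg_one mq]; exact Or.inr rfl
  have hpR : legendreSym p r = -s := S.hpR
  have hqR : legendreSym q r = s := S.hqR
  have hs := S.one
  rcases hd with h | h | h | h
  · rcases hε with h' | h'
    · rw [h, h']
    · rw [h, h', sym_neg_one mq] at hdq; norm_num at hdq
  · rcases hε with h' | h'
    · rw [h, h', one_mul, sym_two mq] at hdq; norm_num at hdq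
    · exfalso
      have hd2 : d = -2 := by rw [h, h']; ring
      subst hd2
      have hB : B = 2 * k ^ 2 * p * q ^ 2 * r := by
        have := hQ.hb
        linarith
      have he : ¬ (2 : ℤ) ∣ e := by
        intro h2
        have h3 := hQ.cop
        have h4 : (2 : ℤ) ∣ (-2) * M := ⟨-M, by ring⟩
        have := h3.isUnit_of_dvd' h4 h2
        rw [Int.isUnit_iff] at this
        norm_num at this
      have h4 : ¬ (4 : ℤ) ∣ k := by
        intro h4
        have h5 : (2 : ℤ) * 2 ∣ k := by simpa using h4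
        have := hR.sqf 2 h5
        rw [Int.isUnit_iff] at this
        norm_num at this
      refine two_adic k M e N p q r (by omega) (by omega) (by omega) hk h4 he ?_
      rw [← hB]
      exact hQ.eq
  · exfalso
    rw [h, legendreSym.mul] at hdp hdq
    rw [hεpq, hpR] at hdp
    rw [hqR] at hdq
    have : legendreSym q ε * s + legendreSym q ε * (-s) = 2 := by rw [hdp, hdq]; norm_num
    have h3 : legendreSym q ε * s + legendreSym q ε * (-s) = 0 := by ring
    omega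
  · exfalso
    rw [h, legendreSym.mul, legendreSym.mul] at hdp hdq
    rw [hεpq, hpR, sym_two mp] at hdp
    rw [hqR, sym_two mq] at hdq
    have h3 : legendreSym q ε * (-1 * s) + legendreSym q ε * (-1 * (-s)) = 0 := by ring
    rw [hdp, hdq] at h3
    norm_num at h3

end Pool.Agent.G02.H90
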